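import Pool.Agent.Helper65.KPZ.St

set_option autoImplicit false

namespace Pool.Agent.Helper84.KPZ

open Pool.Agent.Helper65.KPZ

universe u

theorem hZSH (hZVE : StZVE.{u}) : StZSH.{u} := by
  intro A _ _ D F hF
  obtain ⟨M, hM, hgen⟩ := hZVE D F hF
  have anti' : ∀ (k : ℕ) (l l' : ℤ), l ≤ l' → F k l' ≤ F k l := by
    intro k l l' h
    obtain ⟨n, rfl⟩ := Int.le.dest h
    clear h
    induction n with
    | zero => simp
    | succ n ih =>
      have := hF.anti k (l + n)
      push_cast
      rw [← add_assoc]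
      exact this.trans ih
  obtain ⟨l₀, hl₀⟩ := hF.exh M
  obtain ⟨c, hc⟩ : ∃ c : ℕ, 1 - (c : ℤ) ≤ l₀ := ⟨(1 - l₀).toNat, by omega⟩
  have h1 : F M (1 - (c : ℤ)) = D M :=
    le_antisymm (hF.le _ _) (hl₀ ▸ anti' M _ _ hc)
  -- Claim A
  have hA : ∀ k : ℕ, 0 < k → D (M * (k + 1)) ≤ Submodule.span ℂ
      {x | ∃ f f', f ∈ D (M * k) ∧ f' ∈ D M ∧ x = f * f'} := by
    intro k hk
    obtain ⟨l, hl⟩ := hF.exh (M * (k + 1))
    rw [← hl]
    refine (hgen k l hk).trans (Submodule.span_mono ?_)
    rintro x ⟨i, j, f, f', -, hf, hf', rfl⟩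
    exact ⟨f, f', hF.le _ _ hf, hF.le _ _ hf', rfl⟩
  -- Claim B
  have hB : ∀ k : ℕ, 0 < k → F (M * k) ((k : ℤ) * (1 - c)) = D (M * k) := by
    intro k hk
    induction k, hk using Nat.le_induction with
    | base => simpa using h1
    | succ k hk ih =>
      refine le_antisymm (hF.le _ _) ((hA k hk).trans (Submodule.span_le.2 ?_))
      rintro x ⟨f, f', hf, hf', rfl⟩
      rw [← ih] at hf
      rw [← h1] at hf'
      have := hF.mul _ _ _ _ _ _ hf hf'
      rw [show M * (k + 1) = M * k + M by ring,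
        show (((k + 1 : ℕ) : ℤ) * (1 - c)) = (k : ℤ) * (1 - c) + (1 - c) by push_cast; ring]
      exact this
  have hB' : ∀ k : ℕ, 0 < k → F (M * k) (0 - (c : ℤ) * k) = D (M * k) := by
    intro k hk
    refine le_antisymm (hF.le _ _) ?_
    rw [← hB k hk]
    refine anti' _ _ _ ?_
    have : (0 : ℤ) ≤ k := Int.natCast_nonneg k
    have h2 : (k : ℤ) * (1 - c) = k - c * k := by ring
    rw [h2]
    linarith
  refine ⟨M, c, hM, ?_, ?_, ?_, ?_⟩
  · intro k
    rcases Nat.eq_zero_or_pos k with rfl | hk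
    · simp only [shf]
      simp only [mul_zero, Nat.cast_zero, sub_zero]
      exact hF.zero.1 0 le_rfl
    · simpa only [shf, Nat.cast_zero] using hB' k hk
  · simpa [shf] using h1
  · obtain ⟨l₁, hl₁⟩ := hF.sep M
    refine ⟨(l₁ + c).toNat, ?_⟩
    simp only [shf, mul_one, Nat.cast_one]
    rw [eq_bot_iff, ← hl₁]
    exact anti' _ _ _ (by omega)
  · intro k l hk
    apply le_antisymm
    · refine (hgen k _ hk).trans (Submodule.span_mono ?_)
      rintro x ⟨i₀, j₀, f, f', hij, hf, hf', rfl⟩
      simp only at hij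
      push_cast at hij
      have hij' : (i₀ + c * k) + (j₀ + c) = l := by linear_combination hij
      by_cases hi : i₀ + c * k < 0
      · refine ⟨0, l, f, f', by simp, ?_, ?_, rfl⟩
        · simp only [shf, Nat.cast_zero]
          rw [hB' k hk]
          exact hF.le _ _ hf
        · simp only [shf, Nat.cast_one, mul_one]
          exact anti' _ _ _ (by omega) hf'
      · by_cases hj : j₀ + c < 0
        · refine ⟨l, 0, f, f', by simp, ?_, ?_, rfl⟩
          · simp only [shf]
            refine anti' _ _ _ ?_ hf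
            linarith
          · simp only [shf, Nat.cast_zero]
            rw [hB' 1 one_pos, mul_one]
            exact hF.le _ _ hf'
        · refine ⟨(i₀ + c * k).toNat, (j₀ + c).toNat, f, f', ?_, ?_, ?_, rfl⟩
          · omega
          · simp only [shf]
            refine anti' _ _ _ ?_ hf
            rw [Int.toNat_of_nonneg (not_lt.1 hi)]
            linarith
          · simp only [shf, Nat.cast_one, mul_one]
            refine anti' _ _ _ ?_ hf'
            rw [Int.toNat_of_nonneg (not_lt.1 hj)]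
            linarith
    · rw [Submodule.span_le]
      rintro x ⟨i, j, f, f', rfl, hf, hf', rfl⟩
      simp only [shf] at hf hf' ⊢
      have := hF.mul _ _ _ _ _ _ hf hf'
      rw [show M * k + M * 1 = M * (k + 1) by ring] at this
      rw [show ((i : ℤ) - c * k + (j - c * ((1 : ℕ) : ℤ))) = ((i + j : ℕ) : ℤ) - c * ((k + 1 : ℕ) : ℤ)
        by push_cast; ring] at this
      exact this

end Pool.Agent.Helper84.KPZ
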